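import Mathlib
import Pool.Agent.H935Z.LLDefs
import Pool.Agent.H935Z.LLArg

set_option autoImplicit false

/-!
# A finite unbounded-order Arguesian lattice that is not linear

The witness is the order dual of the lattice of normal subgroups of a finite two-group of class two.
-/

namespace Pool.Agent.Results.MP_9293a4_al.FiniteNotLinear

open Pool.Agent.H935Z.Lin

universe u

/-- There is a finite lattice satisfying `D n` for every `n ≥ 3` that is not isomorphic to a
lattice of pairwise commuting equivalence relations on a set (of any universe). -/
theorem result : ∃ (L : Type) (_ : Lattice L), Finite L ∧ (∀ n, 3 ≤ n → SatisfiesD L n) ∧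
    ¬ IsLinear.{u} L :=
  Pool.Agent.H935Z.Lin.main

end Pool.Agent.Results.MP_9293a4_al.FiniteNotLinear
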